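import Pool.Agent.TH970.MDS.Defs

/-!
# From a Chebyshev point to a stage
-/

set_option autoImplicit false
set_option maxHeartbeats 1000000

namespace Pool.Agent.TH962.MDS

open Real Pool.Agent.TH970.MDS

theorem nn_le (x : ℝ) (z : ℤ) : nn x ≤ |x - z| := H372R3.MD.nn_le x z

theorem nn_nonneg (x : ℝ) : 0 ≤ nn x := H372R3.MD.nn_nonneg x

theorem nn_half (x : ℝ) : nn x ≤ 1 / 2 := H372R3.MD.nn_le_half x

section
variable {C N s N1 s1 g b r r1 ds dN : ℤ} {v : ℝ}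

/-- the first coordinate, multiplied by `g` -/
theorem gx (hN1 : 1 ≤ N1) (hq : N1 ^ 2 - C * N1 * s1 + s1 ^ 2 = 1)
    (hr1 : g * r1 = s1 + 2 * N1 * b) :
    (g : ℝ) * ((r1 : ℝ) * s1 / N1 + v / (N1 : ℝ) ^ 2) =
      ((2 * b * s1 + C * s1 - N1 : ℤ) : ℝ) + (1 / N1 + g * v / (N1 : ℝ) ^ 2) := by
  have hp : (0 : ℝ) < N1 := by exact_mod_cast hN1
  have e1 : (g : ℝ) * r1 = s1 + 2 * N1 * b := by exact_mod_cast hr1
  have e2 : (N1 : ℝ) ^ 2 - C * N1 * s1 + s1 ^ 2 = 1 := by exact_mod_cast hq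
  push_cast
  field_simp
  linear_combination (N1 * s1 : ℝ) * e1 + (N1 : ℝ) * e2

/-- the second coordinate, multiplied by `g` -/
theorem gy (hN1 : 1 ≤ N1) (hr1 : g * r1 = s1 + 2 * N1 * b) :
    (g : ℝ) * ((r1 : ℝ) / (2 * N1 : ℝ)) = (b : ℝ) + s1 / (2 * N1) := by
  have hp : (0 : ℝ) < N1 := by exact_mod_cast hN1
  have e1 : (g : ℝ) * r1 = s1 + 2 * N1 * b := by exact_mod_cast hr1
  field_simp
  linear_combination e1

end

theorem core {C N s N1 s1 g b r r1 ds dN J : ℤ} {v t ε δ : ℝ} (hN : 1 ≤ N) (hN1 : 1 ≤ N1)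
    (hs : 0 ≤ s) (hsN : s ≤ N) (hs1 : 0 ≤ s1) (hsN1 : s1 ≤ N1)
    (hq0 : N ^ 2 - C * N * s + s ^ 2 = 1) (hq : N1 ^ 2 - C * N1 * s1 + s1 ^ 2 = 1)
    (hg : 1 ≤ g) (hb : g * r = s + 2 * N * b) (hr1 : g * r1 = s1 + 2 * N1 * b)
    (hds : s1 - s = g * ds) (hdN : N1 - N = g * dN) (hJ : 1 ≤ J)
    (hv0 : 0 < v) (hvt : v < t) (ht : t ≤ 1 / 2) (hst : (s1 : ℝ) ≤ t * N1)
    (hε : 0 < ε) (_hδ : 0 < δ) (g1 : 2 < δ * g) (g2 : 4 * (N : ℝ) ^ 2 < ε * g)
    (n1 : g ≤ N1) (n2 : (J + 1) * g < N1) (n3 : (J * g + 1 : ℝ) < ε * N1)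
    (hS : ∀ q : ℤ, 1 ≤ q → q < 2 * N1 - J * g → ∀ P R : ℤ,
      v ≤ 2 * N1 * (|q * (r1 * s1 / N1 + v / (N1 : ℝ) ^ 2) - P| * |q * (r1 / (2 * N1 : ℝ)) - R|)) :
    |(r1 * s1 / N1 + v / (N1 : ℝ) ^ 2 : ℝ) + ((-(2 * b * ds + C * ds - dN) : ℤ) : ℝ) -
      (r * s / N + 0 / (N : ℝ) ^ 2)| < δ ∧
    |(r1 / (2 * N1 : ℝ)) - r / (2 * N : ℝ)| < δ ∧
    UP (2 * N) (2 * N1) (max v (t / 2) + ε) (r1 * s1 / N1 + v / (N1 : ℝ) ^ 2) (r1 / (2 * N1 : ℝ)) ∧
    LO N1 (2 * N1) (v - ε) (r1 * s1 / N1 + v / (N1 : ℝ) ^ 2) (r1 / (2 * N1 : ℝ)) := by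
  have hpN : (0 : ℝ) < N := by exact_mod_cast hN
  have hpN1 : (0 : ℝ) < N1 := by exact_mod_cast hN1
  have hpN' : (1 : ℝ) ≤ N := by exact_mod_cast hN
  have hpN1' : (1 : ℝ) ≤ N1 := by exact_mod_cast hN1
  have hpg : (0 : ℝ) < g := by exact_mod_cast hg
  have hpg' : (1 : ℝ) ≤ g := by exact_mod_cast hg
  have n1' : (g : ℝ) ≤ N1 := by exact_mod_cast n1
  have hsR : (0 : ℝ) ≤ s := by exact_mod_cast hs
  have hs1R : (0 : ℝ) ≤ s1 := by exact_mod_cast hs1
  have hsNR : (s : ℝ) ≤ N := by exact_mod_cast hsN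
  have hsN1R : (s1 : ℝ) ≤ N1 := by exact_mod_cast hsN1
  have eb : (g : ℝ) * r = s + 2 * N * b := by exact_mod_cast hb
  have er : (g : ℝ) * r1 = s1 + 2 * N1 * b := by exact_mod_cast hr1
  have eds : (s1 : ℝ) - s = g * ds := by exact_mod_cast hds
  have edN : (N1 : ℝ) - N = g * dN := by exact_mod_cast hdN
  set x : ℝ := r1 * s1 / N1 + v / (N1 : ℝ) ^ 2 with hx
  set y : ℝ := r1 / (2 * N1 : ℝ) with hy
  set x0 : ℝ := r * s / N + 0 / (N : ℝ) ^ 2 with hx0
  set y0 : ℝ := r / (2 * N : ℝ) with hy0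
  set z : ℤ := -(2 * b * ds + C * ds - dN) with hz
  have hgx := gx (v := v) hN1 hq hr1
  have hgx0 := gx (v := 0) hN hq0 hb
  have hgy := gy hN1 hr1
  have hgy0 := gy hN hb
  rw [← hx] at hgx
  rw [← hx0] at hgx0
  rw [← hy] at hgy
  rw [← hy0] at hgy0
  -- first distance
  have hvN : 0 ≤ v / (N1 : ℝ) ^ 2 := by positivity
  have hvN2 : v / (N1 : ℝ) ^ 2 ≤ 1 / g := by
    rw [div_le_div_iff₀ (by positivity) hpg]
    have h1 : v * g ≤ 1 * N1 := mul_le_mul (by linarith) n1' hpg.le (by norm_num)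
    have h2 : (1 : ℝ) * N1 ≤ 1 * (N1 : ℝ) ^ 2 := by
      have : (N1 : ℝ) ≤ (N1 : ℝ) ^ 2 := le_self_pow₀ hpN1' (by norm_num)
      linarith
    linarith
  have hE : x + (z : ℝ) - x0 = (1 / N1 - 1 / N) / g + v / (N1 : ℝ) ^ 2 := by
    have h1 : (g : ℝ) * (x + (z : ℝ) - x0) = (1 / N1 - 1 / N) + g * (v / (N1 : ℝ) ^ 2) := by
      have e : (g : ℝ) * (x + (z : ℝ) - x0) = g * x + g * (z : ℝ) - g * x0 := by ring
      rw [e, hgx, hgx0, hz]
      push_cast
      have e3 : (s1 : ℝ) = s + g * ds := by linarith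
      have e4 : (N1 : ℝ) = N + g * dN := by linarith
      linear_combination (2 * b + C : ℝ) * e3 - e4
    have h2 : x + (z : ℝ) - x0 = ((1 / N1 - 1 / N) + g * (v / (N1 : ℝ) ^ 2)) / g := by
      rw [← h1]; field_simp
    rw [h2]; field_simp
  have hEa : |x + (z : ℝ) - x0| ≤ 2 / g := by
    rw [hE]
    have a1 : (1 : ℝ) / N1 ≤ 1 := by rw [div_le_one hpN1]; exact hpN1'
    have a2 : (1 : ℝ) / N ≤ 1 := by rw [div_le_one hpN]; exact hpN'
    have a3 : 0 < (1 : ℝ) / N1 := by positivity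
    have a4 : 0 < (1 : ℝ) / N := by positivity
    have a5 : |(1 / N1 - 1 / N : ℝ) / g| ≤ 1 / g := by
      rw [abs_div, abs_of_pos hpg]
      apply div_le_div_of_nonneg_right _ hpg.le
      rw [abs_le]; constructor <;> linarith
    calc |(1 / N1 - 1 / N : ℝ) / g + v / (N1 : ℝ) ^ 2|
        ≤ |(1 / N1 - 1 / N : ℝ) / g| + |v / (N1 : ℝ) ^ 2| := abs_add_le _ _
      _ ≤ 1 / g + 1 / g := by rw [abs_of_nonneg hvN]; linarith
      _ = 2 / g := by ring
  -- second distance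
  have hF : y - y0 = (s1 / (2 * N1) - s / (2 * N)) / g := by
    have h1 : (g : ℝ) * (y - y0) = s1 / (2 * N1) - s / (2 * N) := by
      rw [mul_sub, hgy, hgy0]; ring
    rw [← h1]; field_simp
  have hFa : |y - y0| ≤ 1 / (2 * g) := by
    rw [hF, abs_div, abs_of_pos hpg]
    have a1 : 0 ≤ (s1 : ℝ) / (2 * N1) := by positivity
    have a2 : 0 ≤ (s : ℝ) / (2 * N) := by positivity
    have a3 : (s1 : ℝ) / (2 * N1) ≤ 1 / 2 := by
      rw [div_le_div_iff₀ (by positivity) (by norm_num)]; linarith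
    have a4 : (s : ℝ) / (2 * N) ≤ 1 / 2 := by
      rw [div_le_div_iff₀ (by positivity) (by norm_num)]; linarith
    have a5 : |(s1 : ℝ) / (2 * N1) - s / (2 * N)| ≤ 1 / 2 := by
      rw [abs_le]; constructor <;> linarith
    have : (1 : ℝ) / (2 * g) = (1 / 2) / g := by field_simp
    rw [this]
    exact div_le_div_of_nonneg_right a5 hpg.le
  have hδg : 2 / (g : ℝ) < δ := by rw [div_lt_iff₀ hpg]; exact g1
  refine ⟨lt_of_le_of_lt hEa hδg, ?_, ?_, ?_⟩
  · refine lt_of_le_of_lt hFa (lt_of_le_of_lt ?_ hδg)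
    rw [div_le_div_iff₀ (by positivity) hpg]
    linarith
  · -- the upper bound
    intro m hm1 hm2
    have hm2' : (m : ℝ) + 1 ≤ 2 * N1 := by exact_mod_cast (by omega : m + 1 ≤ 2 * N1)
    rcases lt_or_ge m g with h | h
    · refine ⟨2 * N, by omega, hm1, ?_⟩
      have b1 : nn (((2 * N : ℤ) : ℝ) * x) ≤ 4 * N / g := by
        have e : ((2 * N : ℤ) : ℝ) * x - ((2 * r * s - 2 * N * z : ℤ) : ℝ) =
            2 * N * (x + (z : ℝ) - x0) := by
          have e1 : (N : ℝ) * x0 = r * s := by rw [hx0]; field_simp; ring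
          push_cast
          linear_combination (2 : ℝ) * e1
        refine (nn_le _ (2 * r * s - 2 * N * z)).trans ?_
        rw [e, abs_mul, abs_of_pos (by positivity : (0 : ℝ) < 2 * N)]
        calc 2 * (N : ℝ) * |x + (z : ℝ) - x0| ≤ 2 * N * (2 / g) :=
              mul_le_mul_of_nonneg_left hEa (by positivity)
          _ = 4 * N / g := by ring
      have b2 : nn (((2 * N : ℤ) : ℝ) * y) ≤ N / g := by
        have e : ((2 * N : ℤ) : ℝ) * y - (r : ℝ) = 2 * N * (y - y0) := by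
          have e1 : 2 * (N : ℝ) * y0 = r := by rw [hy0]; field_simp
          push_cast
          linear_combination e1
        refine (nn_le _ r).trans ?_
        rw [e, abs_mul, abs_of_pos (by positivity : (0 : ℝ) < 2 * N)]
        calc 2 * (N : ℝ) * |y - y0| ≤ 2 * N * (1 / (2 * g)) :=
              mul_le_mul_of_nonneg_left hFa (by positivity)
          _ = N / g := by field_simp
      have b3 : nn (((2 * N : ℤ) : ℝ) * x) * nn (((2 * N : ℤ) : ℝ) * y) ≤ (4 * N / g) * (N / g) :=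
        mul_le_mul b1 b2 (nn_nonneg _) (by positivity)
      have b4 : (m : ℝ) + 1 ≤ g := by exact_mod_cast (by omega : m + 1 ≤ g)
      have b5 : ((m : ℝ) + 1) * (nn (((2 * N : ℤ) : ℝ) * x) * nn (((2 * N : ℤ) : ℝ) * y)) ≤
          g * ((4 * N / g) * (N / g)) :=
        mul_le_mul b4 b3 (mul_nonneg (nn_nonneg _) (nn_nonneg _)) hpg.le
      have b6 : (g : ℝ) * ((4 * N / g) * (N / g)) = 4 * N ^ 2 / g := by field_simp
      have b7 : 4 * (N : ℝ) ^ 2 / g < ε := by rw [div_lt_iff₀ hpg]; exact g2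
      have b8 : v ≤ max v (t / 2) := le_max_left _ _
      rw [b6] at b5
      linarith
    · rcases lt_or_ge m N1 with h' | h'
      · refine ⟨g, hg, h, ?_⟩
        have b1 : nn ((g : ℝ) * x) ≤ (1 + g * v / N1) / N1 := by
          refine (nn_le _ (2 * b * s1 + C * s1 - N1)).trans ?_
          rw [hgx, add_sub_cancel_left, abs_of_nonneg (by positivity)]
          apply le_of_eq
          field_simp
        have b2 : nn ((g : ℝ) * y) ≤ t / 2 := by
          refine (nn_le _ b).trans ?_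
          rw [hgy, add_sub_cancel_left, abs_of_nonneg (by positivity)]
          rw [div_le_div_iff₀ (by positivity) (by norm_num)]
          linarith
        have b3 : nn ((g : ℝ) * x) * nn ((g : ℝ) * y) ≤ ((1 + g * v / N1) / N1) * (t / 2) :=
          mul_le_mul b1 b2 (nn_nonneg _) (by positivity)
        have b4 : (m : ℝ) + 1 ≤ N1 := by exact_mod_cast (by omega : m + 1 ≤ N1)
        have b5 : ((m : ℝ) + 1) * (nn ((g : ℝ) * x) * nn ((g : ℝ) * y)) ≤
            N1 * (((1 + g * v / N1) / N1) * (t / 2)) :=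
          mul_le_mul b4 b3 (mul_nonneg (nn_nonneg _) (nn_nonneg _)) hpN1.le
        have b6 : (N1 : ℝ) * (((1 + g * v / N1) / N1) * (t / 2)) = (1 + g * v / N1) * (t / 2) := by
          field_simp
        rw [b6] at b5
        have hgN : (g : ℝ) / N1 < ε := by
          rw [div_lt_iff₀ hpN1]
          have hJR : (1 : ℝ) ≤ J := by exact_mod_cast hJ
          have hgJ' : (g : ℝ) ≤ J * g := le_mul_of_one_le_left hpg.le hJR
          linarith
        have b7 : (g : ℝ) * v / N1 * (t / 2) ≤ g / N1 := by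
          have : (g : ℝ) * v / N1 * (t / 2) = g / N1 * (v * (t / 2)) := by ring
          rw [this]
          have h1 : v * (t / 2) ≤ 1 :=
            mul_le_one₀ (by linarith) (by linarith) (by linarith)
          have h2 : 0 ≤ (g : ℝ) / N1 := by positivity
          exact mul_le_of_le_one_right h2 h1
        have b8 : t / 2 ≤ max v (t / 2) := le_max_right _ _
        have b9 : (1 + (g : ℝ) * v / N1) * (t / 2) = t / 2 + (g : ℝ) * v / N1 * (t / 2) := by ring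
        linarith
      · refine ⟨N1, hN1, h', ?_⟩
        have b1 : nn ((N1 : ℝ) * x) ≤ v / N1 := by
          refine (nn_le _ (r1 * s1)).trans ?_
          have e : (N1 : ℝ) * x - ((r1 * s1 : ℤ) : ℝ) = v / N1 := by
            rw [hx]; push_cast; field_simp; ring
          rw [e, abs_of_nonneg (by positivity)]
        have b2 := nn_half ((N1 : ℝ) * y)
        have b3 : nn ((N1 : ℝ) * x) * nn ((N1 : ℝ) * y) ≤ (v / N1) * (1 / 2) :=
          mul_le_mul b1 b2 (nn_nonneg _) (by positivity)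
        have b5 : ((m : ℝ) + 1) * (nn ((N1 : ℝ) * x) * nn ((N1 : ℝ) * y)) ≤
            (2 * N1) * ((v / N1) * (1 / 2)) :=
          mul_le_mul hm2' b3 (mul_nonneg (nn_nonneg _) (nn_nonneg _)) (by positivity)
        have b6 : (2 * N1 : ℝ) * ((v / N1) * (1 / 2)) = v := by field_simp
        have b8 : v ≤ max v (t / 2) := le_max_left _ _
        rw [b6] at b5
        linarith
  · -- the lower bound
    have hgJ : J * g < N1 := by linarith
    have hgJ0 : 0 ≤ J * g := by positivity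
    refine ⟨2 * N1 - J * g - 1, by omega, by omega, fun q hq1 hq2 => ?_⟩
    have h := hS q hq1 (by omega) (round ((q : ℝ) * x)) (round ((q : ℝ) * y))
    have e1 : |(q : ℝ) * x - round ((q : ℝ) * x)| = nn ((q : ℝ) * x) := rfl
    have e2 : |(q : ℝ) * y - round ((q : ℝ) * y)| = nn ((q : ℝ) * y) := rfl
    rw [e1, e2] at h
    set A := nn ((q : ℝ) * x) * nn ((q : ℝ) * y) with hA
    have hA0 : 0 ≤ A := mul_nonneg (nn_nonneg _) (nn_nonneg _)
    have hA1 : A ≤ 1 := by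
      have h1 := nn_half ((q : ℝ) * x)
      have h2 := nn_half ((q : ℝ) * y)
      have h3 := nn_nonneg ((q : ℝ) * x)
      have h4 := nn_nonneg ((q : ℝ) * y)
      rw [hA]
      calc nn ((q : ℝ) * x) * nn ((q : ℝ) * y) ≤ 1 * 1 :=
            mul_le_mul (by linarith) (by linarith) h4 (by norm_num)
        _ = 1 := by norm_num
    have hJR : (1 : ℝ) ≤ J := by exact_mod_cast hJ
    push_cast
    -- v ≤ 2 N1 A, A ≤ 1
    rcases le_or_gt A (v / N1) with hAv | hAv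
    · have h5 : ((J : ℝ) * g + 1) * A ≤ (J * g + 1) * (v / N1) :=
        mul_le_mul_of_nonneg_left hAv (by positivity)
      have h6 : ((J : ℝ) * g + 1) * (v / N1) < ε := by
        have : ((J : ℝ) * g + 1) * (v / N1) = ((J * g + 1) * v) / N1 := by ring
        rw [this, div_lt_iff₀ hpN1]
        have : ((J : ℝ) * g + 1) * v ≤ (J * g + 1) * 1 := by
          apply mul_le_mul_of_nonneg_left _ (by positivity)
          linarith
        linarith
      have h9 : (2 * (N1 : ℝ) - J * g - 1) * A = 2 * N1 * A - (J * g + 1) * A := by ring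
      rw [h9]
      linarith
    · have h7 : v < A * N1 := by rwa [div_lt_iff₀ hpN1] at hAv
      have h8 : ((J : ℝ) + 1) * g < N1 := by exact_mod_cast n2
      have h9 : (N1 : ℝ) ≤ 2 * N1 - J * g - 1 := by linarith
      have h10 : A * N1 ≤ A * (2 * N1 - J * g - 1) := mul_le_mul_of_nonneg_left h9 hA0
      linarith

theorem ch_ge {C : ℤ} (h0 : ∀ n, 0 ≤ ch C n) (h : ∀ n, 2 * ch C n + 1 ≤ ch C (n + 1)) (n : ℕ) :
    (n : ℤ) ≤ ch C n := by
  induction n with
  | zero => simpa using h0 0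
  | succ n ih =>
    have := h n
    have := h0 n
    push_cast
    omega

theorem t_A2 : StTh → StCh → StPer → StS → StA2 := by
  intro hTh hCh hPer hStS C hC κ r v ε δ hκ hodd hcop hv0 hvt hε hδ
  obtain ⟨ht0, htle, -, -, -, -, -⟩ := hTh C hC
  obtain ⟨c1, c2, c3, -, c5, c6, -⟩ := hCh C hC
  have hthalf : th C ≤ 1 / 2 := by
    have h5 : (2 : ℝ) ≤ √5 := by
      rw [show (2 : ℝ) = √4 by
        rw [show (4 : ℝ) = 2 ^ 2 by norm_num]; exact (Real.sqrt_sq (by norm_num)).symm]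
      exact Real.sqrt_le_sqrt (by norm_num)
    linarith
  obtain ⟨K, J, hJ, hS⟩ := hStS C hC v hv0 hvt
  have hmono : ∀ n, ch C n ≤ ch C (n + 1) := fun n => by
    have := c1 n
    have := c2 n
    omega
  have hN : 1 ≤ ch C (κ + 1) := by
    have := c1 κ
    have := c2 κ
    omega
  -- choice of g
  obtain ⟨a, a', haa⟩ := hcop
  obtain ⟨T, hT⟩ := exists_nat_gt (2 / δ + 4 * (ch C (κ + 1) : ℝ) ^ 2 / ε)
  have hsum0 : 0 ≤ 2 / δ := by positivity
  have hsum1 : 0 ≤ 4 * (ch C (κ + 1) : ℝ) ^ 2 / ε := by positivity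
  set g : ℤ := a * ch C κ + 2 * ch C (κ + 1) * (|a * ch C κ| + T) with hg
  have hgT : (T : ℤ) ≤ g := by
    have h1 : -|a * ch C κ| ≤ a * ch C κ := neg_abs_le _
    have h2 : 0 ≤ |a * ch C κ| := abs_nonneg _
    have h3 : (0 : ℤ) ≤ T := by positivity
    nlinarith
  have hgTR : (T : ℝ) ≤ g := by exact_mod_cast hgT
  have hgR : 2 / δ + 4 * (ch C (κ + 1) : ℝ) ^ 2 / ε < g := lt_of_lt_of_le hT hgTR
  have hg0R : (0 : ℝ) < g := lt_of_le_of_lt (by positivity) hgR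
  have hg0 : 0 < g := by exact_mod_cast hg0R
  have g1 : 2 < δ * g := by
    have : 2 / δ < g := by linarith
    have h3 := (div_lt_iff₀ hδ).1 this
    linarith
  have g2 : 4 * (ch C (κ + 1) : ℝ) ^ 2 < ε * g := by
    have : 4 * (ch C (κ + 1) : ℝ) ^ 2 / ε < g := by linarith
    have h3 := (div_lt_iff₀ hε).1 this
    linarith
  -- b
  have hbdiv : 2 * ch C (κ + 1) ∣ g * r - ch C κ := by
    refine ⟨(|a * ch C κ| + T) * r - a' * ch C κ, ?_⟩
    rw [hg]
    linear_combination ch C κ * haa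
  obtain ⟨b, hb⟩ := hbdiv
  have hb' : g * r = ch C κ + 2 * ch C (κ + 1) * b := by linarith
  -- the period
  obtain ⟨p, hp1, hp⟩ := hPer C (2 * g) (by omega)
  obtain ⟨W, hW⟩ := exists_nat_gt (((J : ℝ) + 1) * g + (J * g + 1) / ε)
  set w : ℕ := W + K + 1 with hw
  set k : ℕ := κ + p * w with hk
  have hpw : w ≤ p * w := Nat.le_mul_of_pos_left w (by omega)
  have hkW : W ≤ k + 1 := by omega
  have hkK : K ≤ k := by omega
  have hκk : κ < k := by omega
  have hkN : ((k + 1 : ℕ) : ℤ) ≤ ch C (k + 1) := ch_ge c1 c2 (k + 1)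
  have hWN : (W : ℝ) ≤ ch C (k + 1) := by
    have : (W : ℤ) ≤ ch C (k + 1) := by
      have : (W : ℤ) ≤ ((k + 1 : ℕ) : ℤ) := by exact_mod_cast hkW
      linarith
    exact_mod_cast this
  have hJ' : (1 : ℤ) ≤ J := by exact_mod_cast hJ
  have hJR : (1 : ℝ) ≤ J := by exact_mod_cast hJ
  have hpos2 : 0 ≤ ((J : ℝ) * g + 1) / ε := by positivity
  have hN1R : ((J : ℝ) + 1) * g + (J * g + 1) / ε < ch C (k + 1) := lt_of_lt_of_le hW hWN
  have n2R : ((J : ℝ) + 1) * g < ch C (k + 1) := by linarith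
  have n2 : ((J : ℤ) + 1) * g < ch C (k + 1) := by exact_mod_cast n2R
  have n1 : g ≤ ch C (k + 1) := by nlinarith
  have n3 : ((J : ℝ) * g + 1 : ℝ) < ε * ch C (k + 1) := by
    have h1 : 0 ≤ ((J : ℝ) + 1) * g := by positivity
    have : ((J : ℝ) * g + 1) / ε < ch C (k + 1) := by linarith
    have h3 := (div_lt_iff₀ hε).1 this
    linarith
  obtain ⟨ds2, hds⟩ := hp κ w
  obtain ⟨dN2, hdN⟩ := hp (κ + 1) w
  rw [← hk] at hds
  have hk1 : κ + 1 + p * w = k + 1 := by omega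
  rw [hk1] at hdN
  have hodd1 : Odd (ch C k) := by
    obtain ⟨o, ho⟩ := hodd
    exact ⟨o + g * ds2, by linarith⟩
  -- r1
  obtain ⟨r1, hr1⟩ : ∃ r1 : ℤ, g * r1 = ch C k + 2 * ch C (k + 1) * b := by
    refine ⟨r + 2 * ds2 + 4 * dN2 * b, ?_⟩
    linear_combination hb' - hds - 2 * b * hdN
  have hcop2 : IsCoprime (ch C k) (2 * ch C (k + 1)) := by
    refine IsCoprime.mul_right ?_ (c5 k)
    obtain ⟨o, ho⟩ := hodd1
    exact ⟨1, -o, by rw [ho]; ring⟩
  have hcop1 : IsCoprime r1 (2 * ch C (k + 1)) := by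
    have h1 : IsCoprime (g * r1) (2 * ch C (k + 1)) := by
      have h2 := hcop2.add_mul_left_left b
      rwa [← hr1] at h2
    exact h1.of_mul_left_right
  have hdvd : 2 * ch C (k + 1) ∣ g * r1 - ch C k := ⟨b, by linarith⟩
  have hN1 : 1 ≤ ch C (k + 1) := by
    have := c1 k
    have := c2 k
    omega
  have hst : ((ch C k : ℤ) : ℝ) ≤ th C * ch C (k + 1) := by
    have h1 := c6 k
    have h2 : 0 < th C ^ (k + 1) := pow_pos ht0 _
    linarith
  have hS' := hS k hkK hodd1 r1 g hcop1 hg0 n2 hdvd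
  have hcore := core (C := C) (N := ch C (κ + 1)) (s := ch C κ) (N1 := ch C (k + 1))
    (s1 := ch C k) (g := g) (b := b) (r := r) (r1 := r1) (ds := 2 * ds2) (dN := 2 * dN2)
    (J := J) (v := v) (t := th C) (ε := ε) (δ := δ) hN hN1 (c1 κ) (hmono κ) (c1 k) (hmono k)
    (c3 κ) (c3 k) (by omega) hb' hr1 (by linarith) (by linarith) hJ' hv0 hvt hthalf hst hε hδ
    g1 g2 n1 n2 (by exact_mod_cast n3) hS'
  obtain ⟨h1, h2, h3, h4⟩ := hcore
  exact ⟨k, r1, _, hκk, hodd1, hcop1, h1, h2, h3, h4⟩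

end Pool.Agent.TH962.MDS
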